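import Mathlib

/-!
# Definitions: the group `G = C₃ * ℤ` and the two boundary maps
-/

namespace Exotic

/-- The group `G = C₃ * ℤ`. -/
abbrev G : Type := Monoid.Coprod (Multiplicative (ZMod 3)) (Multiplicative ℤ)

/-- The group ring `k G`. -/
abbrev KG (k : Type*) [CommRing k] : Type _ := MonoidAlgebra k G

/-- the generator of `C₃`, in `G` -/
def ga : G := Monoid.Coprod.inl (Multiplicative.ofAdd 1)

/-- the generator of `ℤ`, in `G` -/
def gb : G := Monoid.Coprod.inr (Multiplicative.ofAdd 1)

section
variable (k : Type*) [CommRing k]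

/-- `a ∈ k G` -/
noncomputable def a : KG k := MonoidAlgebra.single ga 1

/-- `b ∈ k G` -/
noncomputable def b : KG k := MonoidAlgebra.single gb 1

/-- The augmentation `k G → k`. -/
noncomputable def aug : KG k →ₐ[k] k := MonoidAlgebra.lift k k G 1

/-- `∂₁ : (k G)³ → k G` of the presentation `⟨a, b, z | a³, z⟩`:
`(p, q, r) ↦ p (a - 1) + q (b - 1)` (the generator `z` is trivial in `G`). -/
noncomputable def d1 : (KG k × KG k × KG k) →ₗ[KG k] KG k where
  toFun x := x.1 * (a k - 1) + x.2.1 * (b k - 1)
  map_add' x y := by simp [add_mul]; abel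
  map_smul' c x := by simp [mul_add, mul_assoc]

/-- `∂₂` of the presentation `⟨a, b, z | a³, z⟩`: `(p, q) ↦ (p (1 + a + a²), 0, q)`. -/
noncomputable def dL : (KG k × KG k) →ₗ[KG k] (KG k × KG k × KG k) where
  toFun x := (x.1 * (1 + a k + a k ^ 2), 0, x.2)
  map_add' x y := by simp [add_mul]
  map_smul' c x := by simp [mul_assoc]

/-- The twisted boundary
`(p, q) ↦ (p (1 + a + a²), 0, p (1 + a b - b a) + q (a - 2))`. -/
noncomputable def dK : (KG k × KG k) →ₗ[KG k] (KG k × KG k × KG k) where
  toFun x := (x.1 * (1 + a k + a k ^ 2), 0,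
    x.1 * (1 + a k * b k - b k * a k) + x.2 * (a k - 2))
  map_add' x y := by simp [add_mul]; abel
  map_smul' c x := by simp [mul_add, mul_assoc]

/-- Exactness at `C₀`: the image of `∂₁` is the kernel of the augmentation. -/
def ExactAtZero : Prop := ∀ x, aug k x = 0 ↔ ∃ v, d1 k v = x

/-- Exactness at `C₁` for a boundary map `d : C₂ → C₁`: the image of `d` is the kernel of `∂₁`. -/
def ExactAtOne (d : (KG k × KG k) →ₗ[KG k] (KG k × KG k × KG k)) : Prop :=
  ∀ x, d1 k x = 0 ↔ ∃ v, d v = x

/-- There is an isomorphism `f` in degree two which together with the identity in degrees one and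
zero is an isomorphism between the complexes with boundary maps `dK` and `dL`. -/
def LadderIso : Prop :=
  ∃ f : (KG k × KG k) ≃ₗ[KG k] (KG k × KG k), ∀ x, dL k (f x) = dK k x

/-- The same after adding one free summand, with zero boundary, to both modules in degree two. -/
def StableLadderIso : Prop :=
  ∃ f : ((KG k × KG k) × KG k) ≃ₗ[KG k] ((KG k × KG k) × KG k), ∀ x, dL k (f x).1 = dK k x.1

/-- The kernels of the two boundary maps in degree two are isomorphic `k G`-modules. -/
def KernelIso : Prop :=
  Nonempty (LinearMap.ker (dL k) ≃ₗ[KG k] LinearMap.ker (dK k))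

end

end Exotic
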