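import Mathlib

/-!
# The quaternion order `S = ℤ[ζ] ⊕ ℤ[ζ] X`, `ζ² + ζ + 1 = 0`, `X ζ = ζ̄ X`, `X² = -200`
-/

namespace Exotic

/-- The order `ℤ[ζ] ⊕ ℤ[ζ] X` with `ζ² = -1 - ζ` and `X² = -200`. -/
abbrev S : Type := QuaternionAlgebra ℤ (-1) (-1) (-200)

/-- reduced norm -/
def nrd (q : S) : ℤ :=
  q.re ^ 2 - q.re * q.imI + q.imI ^ 2 + 200 * (q.imJ ^ 2 - q.imJ * q.imK + q.imK ^ 2)

theorem nrd_mul (p q : S) : nrd (p * q) = nrd p * nrd q := by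
  simp only [nrd, QuaternionAlgebra.re_mul, QuaternionAlgebra.imI_mul,
    QuaternionAlgebra.imJ_mul, QuaternionAlgebra.imK_mul]
  ring

theorem form_nonneg (x y : ℤ) : 0 ≤ x ^ 2 - x * y + y ^ 2 := by
  nlinarith [sq_nonneg (2 * x - y), sq_nonneg y]

theorem form_zero {x y : ℤ} (h : x ^ 2 - x * y + y ^ 2 ≤ 0) : x = 0 ∧ y = 0 := by
  have h1 : y ^ 2 ≤ 0 := by nlinarith [sq_nonneg (2 * x - y)]
  have h2 : x ^ 2 ≤ 0 := by nlinarith [sq_nonneg (2 * y - x)]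
  exact ⟨by nlinarith [pow_eq_zero_iff (two_ne_zero) |>.1 (le_antisymm h2 (sq_nonneg x))],
    by nlinarith [pow_eq_zero_iff (two_ne_zero) |>.1 (le_antisymm h1 (sq_nonneg y))]⟩

theorem nrd_nonneg (q : S) : 0 ≤ nrd q := by
  unfold nrd
  nlinarith [form_nonneg q.re q.imI, form_nonneg q.imJ q.imK]

/-- The element `ζ`. -/
def zeta : S := ⟨0, 1, 0, 0⟩

/-- The element `X`. -/
def xx : S := ⟨0, 0, 1, 0⟩

theorem zeta_cube : zeta ^ 3 = 1 := by
  rw [pow_succ, pow_two]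
  ext <;> simp [zeta]

theorem S_two : (2 : S) = ⟨2, 0, 0, 0⟩ := rfl
theorem S_four : (4 : S) = ⟨4, 0, 0, 0⟩ := rfl
theorem S_seven : (7 : S) = ⟨7, 0, 0, 0⟩ := rfl

theorem ext4 {p q : S} (h : p = q) :
    p.re = q.re ∧ p.imI = q.imI ∧ p.imJ = q.imJ ∧ p.imK = q.imK := by
  subst h; simp

/-- The contradiction in the order `S`. -/
theorem quat_contra (ω r c t : S)
    (h1 : r * ω = 7 * (zeta - 1))
    (h2 : ω * (1 + zeta * xx - xx * zeta) = c * (zeta - 2))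
    (h3 : (zeta - 1) * (zeta - 2) * (1 + xx * ((zeta - 1) * (zeta - 4))) = t * ω) : False := by
  have hn : nrd r * nrd ω = 147 := by
    rw [← nrd_mul, h1]
    have : (7 * (zeta - 1) : S) = ⟨-7, 7, 0, 0⟩ := by
      ext <;> simp [zeta, S_seven]
    rw [this]
    simp [nrd]
  have hω : ω.imJ = 0 ∧ ω.imK = 0 := by
    apply form_zero
    by_contra hcon
    push Not at hcon
    have h4 : 200 ≤ nrd ω := by
      unfold nrd
      nlinarith [form_nonneg ω.re ω.imI]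
    have h5 : 1 ≤ nrd r := by
      by_contra h6
      push Not at h6
      have := nrd_nonneg r
      have : nrd r = 0 := by omega
      rw [this] at hn
      omega
    nlinarith
  obtain ⟨hj, hk⟩ := hω
  have e1 : (1 + zeta * xx - xx * zeta : S) = ⟨1, 0, 1, 2⟩ := by
    ext <;> simp [zeta, xx]
  have e2 : (zeta - 2 : S) = ⟨-2, 1, 0, 0⟩ := by
    ext <;> simp [zeta, S_two]
  have e3 : ((zeta - 1) * (zeta - 2) * (1 + xx * ((zeta - 1) * (zeta - 4))) : S).re = 1 := by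
    simp [zeta, xx, S_two, S_four]
  rw [e1, e2] at h2
  obtain ⟨g1, g2, g3, g4⟩ := ext4 h2
  have g5 := (ext4 h3).1
  rw [e3] at g5
  simp [hj, hk] at g1 g2 g3 g4 g5
  obtain ⟨x, hx⟩ : ∃ x : ℤ, ω.re = 7 * x := ⟨ω.re / 7, by omega⟩
  obtain ⟨y, hy⟩ : ∃ y : ℤ, ω.imI = 7 * y := ⟨ω.imI / 7, by omega⟩
  rw [hx, hy] at g5
  have : (1 : ℤ) = 7 * (t.re * x - t.imI * y) := by linarith
  omega

end Exotic
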