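import Mathlib

/-!
# Identities in a ring with an element `a` of order three

`A` is any ring, `a b : A` with `a ^ 3 = 1`, `N = 1 + a + a²`, `y = 1 + a b - b a`.
-/

open Polynomial

namespace Exotic

variable {A : Type*} [Ring A]

/-- `N = 1 + a + a²` -/
def nn (a : A) : A := 1 + a + a ^ 2

/-- `y = 1 + a b - b a` -/
def yy (a b : A) : A := 1 + a * b - b * a

/-- `s = 3 (a - 1) (a - 4)` -/
def ss (a : A) : A := 3 * (a - 1) * (a - 4)

/-- `v = a² + 2 a + 4` -/
def vv (a : A) : A := a ^ 2 + 2 * a + 4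

/-- `t` with `s y + t (a - 2) = 1` -/
def tt (a b : A) : A :=
  (-a ^ 2 - 5 * a + 5) - 3 * (a - 1) ^ 2 * b * vv a + ss a * b

theorem yy_eq (a b : A) : yy a b = 1 + (a - 2) * b - b * (a - 2) := by
  unfold yy
  rw [sub_mul, mul_sub, two_mul, mul_two]
  abel

theorem seven_comm (b : A) : b * 7 = 7 * b := by
  have := (Nat.cast_commute 7 b).eq
  simpa using this.symm

section
variable {a : A} (ha : a ^ 3 = 1)
include ha

theorem am1_nn : (a - 1) * nn a = 0 := by
  have h : ((X - 1) * (1 + X + X ^ 2) : ℤ[X]) = X ^ 3 - 1 := by ring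
  have := congrArg (aeval a) h
  simpa [nn, ha, map_ofNat] using this

theorem nn_am1 : nn a * (a - 1) = 0 := by
  have h : ((1 + X + X ^ 2) * (X - 1) : ℤ[X]) = X ^ 3 - 1 := by ring
  have := congrArg (aeval a) h
  simpa [nn, ha, map_ofNat] using this

theorem ss_nn : ss a * nn a = 0 := by
  have h : (3 * (X - 1) * (X - 4) * (1 + X + X ^ 2) : ℤ[X])
      = 3 * (X - 4) * (X ^ 3 - 1) := by ring
  have := congrArg (aeval a) h
  simpa [nn, ss, ha, map_ofNat] using this

theorem am2_vv : (a - 2) * vv a = -7 := by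
  have h : ((X - 2) * (X ^ 2 + 2 * X + 4) : ℤ[X]) = (X ^ 3 - 1) - 7 := by ring
  have := congrArg (aeval a) h
  simpa [vv, ha, map_ofNat] using this

theorem vv_am2 : vv a * (a - 2) = -7 := by
  have h : ((X ^ 2 + 2 * X + 4) * (X - 2) : ℤ[X]) = (X ^ 3 - 1) - 7 := by ring
  have := congrArg (aeval a) h
  simpa [vv, ha, map_ofNat] using this

theorem t0_am2 : (-a ^ 2 - 5 * a + 5) * (a - 2) = 1 - ss a := by
  have h : ((-X ^ 2 - 5 * X + 5) * (X - 2) : ℤ[X])
      = 1 - 3 * (X - 1) * (X - 4) - (X ^ 3 - 1) := by ring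
  have := congrArg (aeval a) h
  simpa [ss, ha, map_ofNat] using this

theorem ss_am2 : ss a * (a - 2) = -(3 * (a - 1) ^ 2 * 7) := by
  have h : (3 * (X - 1) * (X - 4) * (X - 2) : ℤ[X])
      = -(3 * (X - 1) ^ 2 * 7) + 3 * (X ^ 3 - 1) := by ring
  have := congrArg (aeval a) h
  simpa [ss, ha, map_ofNat] using this

theorem am2_ss : (a - 2) * ss a = -(3 * (a - 1) ^ 2 * 7) := by
  have h : ((X - 2) * (3 * (X - 1) * (X - 4)) : ℤ[X])
      = -(3 * (X - 1) ^ 2 * 7) + 3 * (X ^ 3 - 1) := by ring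
  have := congrArg (aeval a) h
  simpa [ss, ha, map_ofNat] using this

/-- `s y + t (a - 2) = 1` -/
theorem unimodular (b : A) : ss a * yy a b + tt a b * (a - 2) = 1 := by
  have h1 := t0_am2 ha
  have h2 := vv_am2 ha
  have h3 := ss_am2 ha
  have hk := seven_comm b
  rw [yy_eq, tt]
  generalize (-a ^ 2 - 5 * a + 5) = T0 at *
  generalize ss a = S at *
  generalize vv a = V at *
  generalize 3 * (a - 1) ^ 2 = U at *
  generalize a - 2 = c at *
  generalize (7 : A) = k at *
  have h4 : U * b * k = U * k * b := by rw [mul_assoc, hk, ← mul_assoc]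
  calc S * (1 + c * b - b * c) + (T0 - U * b * V + S * b) * c
      = S + (S * c) * b + T0 * c - U * b * (V * c) := by noncomm_ring
    _ = 1 := by
        rw [h1, h2, h3]
        have : U * b * -k = -(U * k * b) := by rw [mul_neg, h4]
        rw [this]
        noncomm_ring

/-- idempotency of `s` when `7 = 0` -/
theorem ss_idem (h7 : (7 : A) = 0) : ss a * ss a = ss a := by
  have h : (3 * (X - 1) * (X - 4) * (3 * (X - 1) * (X - 4)) : ℤ[X])
      = 3 * (X - 1) * (X - 4) + (9 * X - 90) * (X ^ 3 - 1) + 7 * (42 * X ^ 2 - 48 * X + 6) := by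
    ring
  have := congrArg (aeval a) h
  simpa [ss, ha, h7, map_ofNat] using this

theorem ss_am2_zero (h7 : (7 : A) = 0) : ss a * (a - 2) = 0 := by
  rw [ss_am2 ha, h7, mul_zero, neg_zero]

theorem am2_ss_zero (h7 : (7 : A) = 0) : (a - 2) * ss a = 0 := by
  rw [am2_ss ha, h7, mul_zero, neg_zero]

theorem ss_yy_ss (h7 : (7 : A) = 0) (b : A) : ss a * yy a b * ss a = ss a := by
  have h1 := ss_idem ha h7
  have h2 := ss_am2_zero ha h7
  have h3 := am2_ss_zero ha h7
  rw [yy_eq]
  generalize ss a = S at *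
  generalize a - 2 = c at *
  calc S * (1 + c * b - b * c) * S = S * S + (S * c) * b * S - S * b * (c * S) := by noncomm_ring
    _ = S := by rw [h1, h2, h3]; noncomm_ring

/-- `u = a - 2 + s` is a unit when `7 = 0` -/
theorem u_mul (h7 : (7 : A) = 0) : (a - 2 + ss a) * (a ^ 2 - a - 1) = 1 := by
  have h : ((X - 2 + 3 * (X - 1) * (X - 4)) * (X ^ 2 - X - 1) : ℤ[X])
      = 1 + (3 * X - 17) * (X ^ 3 - 1) + 7 * (3 * X ^ 2 + X - 4) := by
    ring
  have := congrArg (aeval a) h
  simpa [ss, ha, h7, map_ofNat] using this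

theorem mul_u (h7 : (7 : A) = 0) : (a ^ 2 - a - 1) * (a - 2 + ss a) = 1 := by
  have h : ((X ^ 2 - X - 1) * (X - 2 + 3 * (X - 1) * (X - 4)) : ℤ[X])
      = 1 + (3 * X - 17) * (X ^ 3 - 1) + 7 * (3 * X ^ 2 + X - 4) := by
    ring
  have := congrArg (aeval a) h
  simpa [ss, ha, h7, map_ofNat] using this

end

/-- first coordinate of an element of the kernel of the twisted boundary -/
def p0 (a b : A) : A := (a - 1) * (a - 2) * (1 + b * ((a - 1) * (a - 4)))

/-- second coordinate of an element of the kernel of the twisted boundary -/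
def q0 (a b : A) : A :=
  -((a - 1) + (a - 1) ^ 2 * b * vv a + (a - 1) * (a - 2) * b * (a - 3)
    - (a - 1) * (a - 2) * b + (a - 1) * (a - 2) * b * (a - 1) ^ 2 * b * vv a
    - (a - 1) * (a - 2) * b * ((a - 1) * (a - 4)) * b)

section
variable {a : A} (ha : a ^ 3 = 1)
include ha

theorem p0_nn (b : A) : p0 a b * nn a = 0 := by
  have h1 : (a - 1) * (a - 2) * nn a = 0 := by
    have h : ((X - 1) * (X - 2) * (1 + X + X ^ 2) : ℤ[X]) = (X - 2) * (X ^ 3 - 1) := by ring
    have := congrArg (aeval a) h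
    simpa [nn, ha, map_ofNat] using this
  have h2 : (a - 1) * (a - 4) * nn a = 0 := by
    have h : ((X - 1) * (X - 4) * (1 + X + X ^ 2) : ℤ[X]) = (X - 4) * (X ^ 3 - 1) := by ring
    have := congrArg (aeval a) h
    simpa [nn, ha, map_ofNat] using this
  have : p0 a b * nn a = (a - 1) * (a - 2) * nn a
      + (a - 1) * (a - 2) * b * ((a - 1) * (a - 4) * nn a) := by
    unfold p0; noncomm_ring
  rw [this, h1, h2]; simp

theorem p0_q0 (b : A) : p0 a b * yy a b + q0 a b * (a - 2) = 0 := by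
  -- `k = 7`, `c = a - 2`, `D = a - 1`, `W = (a-1)(a-4)`, `F = a - 3`
  have h2 := vv_am2 ha
  have hk := seven_comm b
  have hW : (a - 1) * (a - 4) = (a - 3) * (a - 2) - 2 := by
    have h : ((X - 1) * (X - 4) : ℤ[X]) = (X - 3) * (X - 2) - 2 := by ring
    have := congrArg (aeval a) h
    simpa [map_ofNat] using this
  have hWc : (a - 1) * (a - 4) * (a - 2) = -((a - 1) ^ 2 * 7) := by
    have h : ((X - 1) * (X - 4) * (X - 2) : ℤ[X]) = -((X - 1) ^ 2 * 7) + (X ^ 3 - 1) := by ring
    have := congrArg (aeval a) h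
    simpa [ha, map_ofNat] using this
  have hA : (a - 1) * (a - 2) * (a - 2) - (a - 1) * (a - 2) * 2 = -((a - 1) ^ 2 * 7) := by
    have h : ((X - 1) * (X - 2) * (X - 2) - (X - 1) * (X - 2) * 2 : ℤ[X])
      = -((X - 1) ^ 2 * 7) + (X ^ 3 - 1) := by ring
    have := congrArg (aeval a) h
    simpa [ha, map_ofNat] using this
  have h2b : b * 2 = 2 * b := by rw [mul_two, two_mul]
  rw [yy_eq, p0, q0]
  generalize (a - 1) * (a - 4) = W at *
  generalize (a - 1) ^ 2 = D2 at *
  generalize vv a = V at *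
  generalize a - 1 = D at *
  generalize a - 3 = F at *
  generalize a - 2 = c at *
  generalize (7 : A) = k at *
  generalize (2 : A) = l at *
  calc D * c * (1 + b * W) * (1 + c * b - b * c)
        + -(D + D2 * b * V + D * c * b * F - D * c * b + D * c * b * D2 * b * V
          - D * c * b * W * b) * c
      = D * c * c * b + D * c * b * W + D * c * b * (W * c) * b
        - D2 * b * (V * c) - D * c * b * F * c
        - D * c * b * D2 * b * (V * c) := by noncomm_ring
    _ = D * c * c * b + D * c * b * (F * c - l) + D * c * b * -(D2 * k) * b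
        - D2 * b * -k - D * c * b * F * c
        - D * c * b * D2 * b * -k := by rw [h2, hWc, hW]
    _ = (D * c * c * b - D * c * (b * l)) + D2 * (b * k)
        - D * c * b * D2 * k * b + D * c * b * D2 * (b * k) := by noncomm_ring
    _ = (D * c * c - D * c * l) * b + D2 * (k * b)
        - D * c * b * D2 * k * b + D * c * b * D2 * (k * b) := by rw [hk, h2b]; noncomm_ring
    _ = -(D2 * k) * b + D2 * (k * b)
        - D * c * b * D2 * k * b + D * c * b * D2 * (k * b) := by rw [hA]
    _ = 0 := by noncomm_ring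

/-- another element of the kernel of the twisted boundary -/
theorem seven_ker (b : A) :
    (7 * (a - 1)) * yy a b + ((a - 1) * yy a b * vv a) * (a - 2) = 0 := by
  have h2 := vv_am2 ha
  have hk := seven_comm ((a - 1) * yy a b)
  rw [mul_assoc _ (vv a) (a - 2), h2, mul_neg, hk, mul_assoc, add_neg_cancel]

theorem seven_nn : (7 * (a - 1)) * nn a = 0 := by
  rw [mul_assoc, am1_nn ha, mul_zero]

end

end Exotic
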