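import Pool.Agent.Lib.MP_2d4659_gt.Defs
import Pool.Agent.Lib.MP_2d4659_gt.Ring
import Pool.Agent.Lib.MP_2d4659_gt.Quat

namespace Exotic

/-- hom from `C₃` given by an element of order dividing three -/
def c3hom {M : Type*} [Monoid M] (u : M) (hu : u ^ 3 = 1) : Multiplicative (ZMod 3) →* M where
  toFun x := u ^ (x.toAdd.val)
  map_one' := by simp
  map_mul' x y := by
    rw [← pow_add, toAdd_mul, ZMod.val_add, ← pow_eq_pow_mod _ hu]

theorem c3hom_one {M : Type*} [Monoid M] (u : M) (hu : u ^ 3 = 1) :
    c3hom u hu (Multiplicative.ofAdd 1) = u := by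
  show u ^ ((1 : ZMod 3).val) = u
  have : (1 : ZMod 3).val = 1 := rfl
  rw [this, pow_one]

/-- hom from `G` -/
def ghom {M : Type*} [Monoid M] (u : M) (hu : u ^ 3 = 1) (v : Mˣ) : G →* M :=
  Monoid.Coprod.lift (c3hom u hu) ((Units.coeHom M).comp (zpowersHom Mˣ v))

theorem ghom_a {M : Type*} [Monoid M] (u : M) (hu : u ^ 3 = 1) (v : Mˣ) :
    ghom u hu v ga = u := by
  unfold ghom ga
  rw [Monoid.Coprod.lift_apply_inl, c3hom_one]

theorem ghom_b {M : Type*} [Monoid M] (u : M) (hu : u ^ 3 = 1) (v : Mˣ) :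
    ghom u hu v gb = v := by
  unfold ghom gb
  rw [Monoid.Coprod.lift_apply_inr]
  simp

theorem ga_cube : ga ^ 3 = 1 := by
  unfold ga
  rw [← map_pow, ← ofAdd_nsmul]
  have : (3 • (1 : ZMod 3)) = 0 := by decide
  rw [this]; simp

theorem a_cube (k : Type*) [CommRing k] : a k ^ 3 = 1 := by
  unfold a
  rw [MonoidAlgebra.single_pow, ga_cube, one_pow]; rfl

/-- the grading of `G` -/
def chi : G →* Multiplicative (ZMod 3) := Monoid.Coprod.fst

theorem chi_a : chi ga = Multiplicative.ofAdd 1 := rfl

theorem G_induction {motive : G → Prop} (one : motive 1) (ma : ∀ g, motive g → motive (g * ga))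
    (mb : ∀ g, motive g → motive (g * gb)) (mb' : ∀ g, motive g → motive (g * gb⁻¹)) (g : G) :
    motive g := by
  have key : ∀ g h : G, motive h → motive (h * g) := by
    intro g
    induction g using Monoid.Coprod.induction_on with
    | inl m =>
      intro h hh
      have h1 : ∀ n : ℕ, motive (h * ga ^ n) := by
        intro n
        induction n with
        | zero => simpa using hh
        | succ n ih => rw [pow_succ, ← mul_assoc]; exact ma _ ih
      have h2 : (Monoid.Coprod.inl m : G) = ga ^ (m.toAdd.val) := by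
        unfold ga
        rw [← map_pow, ← ofAdd_nsmul]
        congr 1
        show m = Multiplicative.ofAdd (m.toAdd.val • (1 : ZMod 3))
        simp
      rw [h2]; exact h1 _
    | inr n =>
      intro h hh
      have h2 : (Monoid.Coprod.inr n : G) = gb ^ (n.toAdd) := by
        unfold gb
        rw [← map_zpow, ← ofAdd_zsmul]
        simp
      rw [h2]
      induction n.toAdd using Int.induction_on with
      | zero => simpa using hh
      | succ n ih => rw [zpow_add_one, ← mul_assoc]; exact mb _ ih
      | pred n ih => rw [zpow_sub_one, ← mul_assoc]; exact mb' _ ih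
    | mul x y hx hy =>
      intro h hh
      rw [← mul_assoc]; exact hy _ (hx _ hh)
  simpa using key g 1 one

section
variable {k : Type*} [CommRing k]

open Classical in
/-- homogeneous component -/
noncomputable def part (c : ZMod 3) (p : KG k) : KG k :=
  MonoidAlgebra.ofCoeff (p.coeff.filter (fun g => (chi g).toAdd = c))

theorem part_coeff (c : ZMod 3) (p : KG k) (g : G) :
    (part c p).coeff g = if (chi g).toAdd = c then p.coeff g else 0 := by
  classical
  unfold part
  rw [MonoidAlgebra.coeff_ofCoeff, Finsupp.filter_apply]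

theorem mul_a_coeff (p : KG k) (g : G) : (p * a k).coeff g = p.coeff (g * ga⁻¹) := by
  unfold a
  rw [MonoidAlgebra.coeff_mul_single_apply, mul_one]

theorem chi_ga_inv (g : G) : (chi (g * ga⁻¹)).toAdd = (chi g).toAdd - 1 := by
  rw [map_mul, map_inv, chi_a, toAdd_mul, toAdd_inv, toAdd_ofAdd, sub_eq_add_neg]

theorem kerN (p : KG k) (h : p * (1 + a k + a k ^ 2) = 0) : ∃ v, p = v * (a k - 1) := by
  refine ⟨-(part 1 p * (1 + a k) + part 2 p), ?_⟩
  have e : -(part 1 p * (1 + a k) + part 2 p) * (a k - 1)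
      = -(part 1 p * a k * a k) + part 1 p - part 2 p * a k + part 2 p := by noncomm_ring
  have h' : p + p * a k + p * a k * a k = 0 := by
    rw [← h]; noncomm_ring
  rw [e]
  ext g
  have h2 := congrArg (fun q : KG k => q.coeff g) h'
  simp only [MonoidAlgebra.coeff_add, MonoidAlgebra.coeff_neg, MonoidAlgebra.coeff_sub,
    Finsupp.add_apply, Finsupp.neg_apply, Finsupp.sub_apply, mul_a_coeff, part_coeff,
    chi_ga_inv, MonoidAlgebra.coeff_zero, Finsupp.zero_apply] at h2 ⊢
  generalize (chi g).toAdd = c at *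
  have hc : ∀ c : ZMod 3, c = 0 ∨ c = 1 ∨ c = 2 := by decide
  rcases hc c with rfl | rfl | rfl
  · rw [if_pos (by decide), if_neg (by decide), if_pos (by decide), if_neg (by decide)]
    linear_combination h2
  · rw [if_neg (by decide), if_pos (by decide), if_neg (by decide), if_neg (by decide)]
    ring
  · rw [if_neg (by decide), if_neg (by decide), if_neg (by decide), if_pos (by decide)]
    ring

theorem ker_am1 (p : KG k) (h : p * (a k - 1) = 0) : ∃ v, p = v * (1 + a k + a k ^ 2) := by
  refine ⟨part 0 p, ?_⟩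
  have e : part 0 p * (1 + a k + a k ^ 2)
      = part 0 p + part 0 p * a k + part 0 p * a k * a k := by noncomm_ring
  have h' : p * a k = p := by
    have : p * a k - p = 0 := by rw [← h]; noncomm_ring
    exact sub_eq_zero.1 this
  have h2 : ∀ g, p.coeff (g * ga⁻¹) = p.coeff g := by
    intro g
    rw [← mul_a_coeff, h']
  rw [e]
  ext g
  simp only [MonoidAlgebra.coeff_add, Finsupp.add_apply, mul_a_coeff, part_coeff,
    chi_ga_inv, h2]
  generalize (chi g).toAdd = c at *
  have hc : ∀ c : ZMod 3, c = 0 ∨ c = 1 ∨ c = 2 := by decide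
  rcases hc c with rfl | rfl | rfl
  · rw [if_pos (by decide), if_neg (by decide), if_neg (by decide)]; ring
  · rw [if_neg (by decide), if_pos (by decide), if_neg (by decide)]; ring
  · rw [if_neg (by decide), if_neg (by decide), if_pos (by decide)]; ring

end

/-! ### Fox derivative with respect to `b` and the augmentation ideal -/

section
variable {k : Type*} [CommRing k]

theorem b_mul_inv : b k * MonoidAlgebra.single gb⁻¹ 1 = 1 := by
  unfold b
  rw [MonoidAlgebra.single_mul_single, mul_inv_cancel, mul_one]; rfl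

theorem inv_mul_b : MonoidAlgebra.single gb⁻¹ 1 * b k = 1 := by
  unfold b
  rw [MonoidAlgebra.single_mul_single, inv_mul_cancel, mul_one]; rfl

/-- the unit `[[b, 1], [0, 1]]` -/
noncomputable def foxUnit (k : Type*) [CommRing k] : (Matrix (Fin 2) (Fin 2) (KG k))ˣ where
  val := !![b k, 1; 0, 1]
  inv := !![MonoidAlgebra.single gb⁻¹ 1, -MonoidAlgebra.single gb⁻¹ 1; 0, 1]
  val_inv := by
    ext i j; fin_cases i <;> fin_cases j <;> simp [Matrix.mul_apply, Fin.sum_univ_two, b_mul_inv]
  inv_val := by
    ext i j; fin_cases i <;> fin_cases j <;> simp [Matrix.mul_apply, Fin.sum_univ_two, inv_mul_b]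

theorem foxA_cube (k : Type*) [CommRing k] :
    (!![a k, 0; 0, 1] : Matrix (Fin 2) (Fin 2) (KG k)) ^ 3 = 1 := by
  have h := a_cube k
  have h' : a k * a k * a k = 1 := by rw [← h]; noncomm_ring
  rw [pow_succ, pow_two]
  ext i j; fin_cases i <;> fin_cases j <;> simp [Matrix.mul_apply, Fin.sum_univ_two, h']

/-- the representation `g ↦ [[g, d g], [0, 1]]` -/
noncomputable def foxHom (k : Type*) [CommRing k] : G →* Matrix (Fin 2) (Fin 2) (KG k) :=
  ghom !![a k, 0; 0, 1] (foxA_cube k) (foxUnit k)

theorem foxHom_a : foxHom k ga = !![a k, 0; 0, 1] := ghom_a _ _ _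

theorem foxHom_b : foxHom k gb = !![b k, 1; 0, 1] := ghom_b _ _ _

theorem foxHom_b_inv : foxHom k gb⁻¹ =
    !![MonoidAlgebra.single gb⁻¹ 1, -MonoidAlgebra.single gb⁻¹ 1; 0, 1] := by
  have h : foxHom k gb * foxHom k gb⁻¹ = 1 := by rw [← map_mul, mul_inv_cancel, map_one]
  have h2 : foxHom k gb = (foxUnit k).val := foxHom_b
  rw [h2] at h
  exact (Units.inv_eq_of_mul_eq_one_right h).symm

theorem foxHom_struct (g : G) : foxHom k g 0 0 = MonoidAlgebra.single g 1 ∧
    foxHom k g 1 0 = 0 ∧ foxHom k g 1 1 = 1 := by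
  induction g using G_induction with
  | one => rw [map_one]; exact ⟨rfl, rfl, rfl⟩
  | ma g ih =>
    obtain ⟨h1, h2, h3⟩ := ih
    rw [map_mul, foxHom_a]
    simp [Matrix.mul_apply, Fin.sum_univ_two, h1, h2, h3, a]
  | mb g ih =>
    obtain ⟨h1, h2, h3⟩ := ih
    rw [map_mul, foxHom_b]
    simp [Matrix.mul_apply, Fin.sum_univ_two, h1, h2, h3, b]
  | mb' g ih =>
    obtain ⟨h1, h2, h3⟩ := ih
    rw [map_mul, foxHom_b_inv]
    simp [Matrix.mul_apply, Fin.sum_univ_two, h1, h2, h3]

/-- linear extension of `foxHom` -/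
noncomputable def fox (k : Type*) [CommRing k] :
    KG k →ₐ[k] Matrix (Fin 2) (Fin 2) (KG k) := MonoidAlgebra.lift k _ G (foxHom k)

theorem fox_a : fox k (a k) = !![a k, 0; 0, 1] := by
  unfold fox
  conv_lhs => rw [a]
  rw [MonoidAlgebra.lift_single, one_smul, foxHom_a]

theorem fox_b : fox k (b k) = !![b k, 1; 0, 1] := by
  unfold fox
  conv_lhs => rw [b]
  rw [MonoidAlgebra.lift_single, one_smul, foxHom_b]

theorem fox_zero_zero (p : KG k) : fox k p 0 0 = p := by
  induction p using MonoidAlgebra.induction_linear with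
  | zero => simp
  | add x y hx hy => rw [map_add, Matrix.add_apply, hx, hy]
  | single g r =>
    unfold fox
    rw [MonoidAlgebra.lift_single, Matrix.smul_apply, (foxHom_struct g).1,
      MonoidAlgebra.smul_single, smul_eq_mul, mul_one]

theorem fox_kernel (p q : KG k) (h : p * (a k - 1) + q * (b k - 1) = 0) : q = 0 := by
  have h1 : fox k (p * (a k - 1) + q * (b k - 1)) 0 1 = q := by
    rw [map_add, map_mul, map_mul, map_sub, map_sub, fox_a, fox_b, map_one]
    simp [Matrix.mul_apply, Fin.sum_univ_two, fox_zero_zero]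
  rw [← h1, h, map_zero]; rfl

theorem single_sub_one (g : G) : ∃ p q : KG k,
    MonoidAlgebra.single g (1 : k) - 1 = p * (a k - 1) + q * (b k - 1) := by
  induction g using G_induction with
  | one => exact ⟨0, 0, by rw [← MonoidAlgebra.one_def]; simp⟩
  | ma g ih =>
    obtain ⟨p, q, h⟩ := ih
    refine ⟨p + MonoidAlgebra.single g 1, q, ?_⟩
    have e : MonoidAlgebra.single (g * ga) (1 : k) = MonoidAlgebra.single g 1 * a k := by
      unfold a; rw [MonoidAlgebra.single_mul_single, mul_one]
    rw [e]
    linear_combination (norm := noncomm_ring) h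
  | mb g ih =>
    obtain ⟨p, q, h⟩ := ih
    refine ⟨p, q + MonoidAlgebra.single g 1, ?_⟩
    have e : MonoidAlgebra.single (g * gb) (1 : k) = MonoidAlgebra.single g 1 * b k := by
      unfold b; rw [MonoidAlgebra.single_mul_single, mul_one]
    rw [e]
    linear_combination (norm := noncomm_ring) h
  | mb' g ih =>
    obtain ⟨p, q, h⟩ := ih
    refine ⟨p, q - MonoidAlgebra.single (g * gb⁻¹) 1, ?_⟩
    have e : MonoidAlgebra.single g (1 : k) = MonoidAlgebra.single (g * gb⁻¹) 1 * b k := by
      unfold b; rw [MonoidAlgebra.single_mul_single, mul_one, inv_mul_cancel_right]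
    rw [e] at h
    linear_combination (norm := noncomm_ring) h

theorem aug_decomp (x : KG k) : ∃ p q : KG k,
    x = algebraMap k (KG k) (aug k x) + (p * (a k - 1) + q * (b k - 1)) := by
  induction x using MonoidAlgebra.induction_linear with
  | zero => exact ⟨0, 0, by simp⟩
  | add x y hx hy =>
    obtain ⟨p, q, h⟩ := hx
    obtain ⟨p', q', h'⟩ := hy
    refine ⟨p + p', q + q', ?_⟩
    rw [map_add, map_add]
    nth_rewrite 1 [h, h']
    noncomm_ring
  | single g r =>
    obtain ⟨p, q, h⟩ := single_sub_one (k := k) g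
    refine ⟨r • p, r • q, ?_⟩
    have e : aug k (MonoidAlgebra.single g r) = r := by
      unfold aug; rw [MonoidAlgebra.lift_single]; simp
    rw [e, smul_mul_assoc, smul_mul_assoc, ← smul_add, ← h, Algebra.algebraMap_eq_smul_one,
      ← smul_add, add_sub_cancel, MonoidAlgebra.smul_single, smul_eq_mul, mul_one]

end

end Exotic
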