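import Pool.Agent.Lib.MP_2d4659_gt.Group

/-!
# The twisted complex: exactness, field coefficients, stabilisation, non-isomorphism
-/

namespace Exotic

section Exact
variable (k : Type*) [CommRing k]

theorem yy_ab : (1 + a k * b k - b k * a k) = yy (a k) (b k) := rfl
theorem nn_a : (1 + a k + a k ^ 2) = nn (a k) := rfl

theorem range_dL_iff (x : KG k × KG k × KG k) : d1 k x = 0 ↔ ∃ v, dL k v = x := by
  constructor
  · intro h
    obtain ⟨p, q, r⟩ := x
    have h' : p * (a k - 1) + q * (b k - 1) = 0 := h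
    have hq := fox_kernel p q h'
    rw [hq, zero_mul, add_zero] at h'
    obtain ⟨v, hv⟩ := ker_am1 p h'
    exact ⟨(v, r), by simp [dL, hv, hq]⟩
  · rintro ⟨⟨p, q⟩, rfl⟩
    show p * nn (a k) * (a k - 1) + 0 * (b k - 1) = 0
    rw [mul_assoc, nn_am1 (a_cube k)]; simp

theorem dK_range_dL (x : KG k × KG k × KG k) : (∃ v, dL k v = x) ↔ ∃ v, dK k v = x := by
  constructor
  · rintro ⟨⟨p, q⟩, rfl⟩
    have hs := ss_nn (a_cube k)
    have hu := unimodular (a_cube k) (b k)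
    refine ⟨(p + (q - p * yy (a k) (b k)) * ss (a k),
      (q - p * yy (a k) (b k)) * tt (a k) (b k)), ?_⟩
    show ((p + (q - p * yy (a k) (b k)) * ss (a k)) * nn (a k), (0 : KG k),
      (p + (q - p * yy (a k) (b k)) * ss (a k)) * yy (a k) (b k)
        + (q - p * yy (a k) (b k)) * tt (a k) (b k) * (a k - 2)) = (p * nn (a k), 0, q)
    have e1 : (p + (q - p * yy (a k) (b k)) * ss (a k)) * nn (a k) = p * nn (a k) := by
      rw [add_mul, mul_assoc _ (ss (a k)), hs]; simp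
    have e2 : (p + (q - p * yy (a k) (b k)) * ss (a k)) * yy (a k) (b k)
        + (q - p * yy (a k) (b k)) * tt (a k) (b k) * (a k - 2) = q := by
      have : (p + (q - p * yy (a k) (b k)) * ss (a k)) * yy (a k) (b k)
        + (q - p * yy (a k) (b k)) * tt (a k) (b k) * (a k - 2)
        = p * yy (a k) (b k) + (q - p * yy (a k) (b k)) *
          (ss (a k) * yy (a k) (b k) + tt (a k) (b k) * (a k - 2)) := by noncomm_ring
      rw [this, hu, mul_one]; abel
    rw [e1, e2]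
  · rintro ⟨⟨p, q⟩, rfl⟩
    exact ⟨(p, p * yy (a k) (b k) + q * (a k - 2)), rfl⟩

theorem range_d1_iff (x : KG k) : aug k x = 0 ↔ ∃ v, d1 k v = x := by
  constructor
  · intro h
    obtain ⟨p, q, hx⟩ := aug_decomp x
    refine ⟨(p, q, 0), ?_⟩
    rw [h, map_zero, zero_add] at hx
    exact hx.symm
  · rintro ⟨⟨p, q, r⟩, rfl⟩
    show aug k (p * (a k - 1) + q * (b k - 1)) = 0
    have h1 : aug k (a k) = 1 := by unfold aug a; rw [MonoidAlgebra.lift_single]; simp
    have h2 : aug k (b k) = 1 := by unfold aug b; rw [MonoidAlgebra.lift_single]; simp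
    rw [map_add, map_mul, map_mul, map_sub, map_sub, h1, h2, map_one]; simp

end Exact

section Equiv
variable {A : Type*} [Ring A]

/-- `(p, q) ↦ (p, q + p c)` -/
def shR (c : A) : (A × A) ≃ₗ[A] (A × A) where
  toFun x := (x.1, x.2 + x.1 * c)
  invFun x := (x.1, x.2 - x.1 * c)
  map_add' x y := by simp [add_mul]; abel
  map_smul' r x := by simp [mul_add, mul_assoc]
  left_inv x := by simp
  right_inv x := by simp

/-- `(p, q) ↦ (p + q c, q)` -/
def shL (c : A) : (A × A) ≃ₗ[A] (A × A) where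
  toFun x := (x.1 + x.2 * c, x.2)
  invFun x := (x.1 - x.2 * c, x.2)
  map_add' x y := by simp [add_mul]; abel
  map_smul' r x := by simp [mul_add, mul_assoc]
  left_inv x := by simp
  right_inv x := by simp

/-- `(p, q) ↦ (p, q u)` -/
def dgR (u v : A) (h : u * v = 1) (h' : v * u = 1) : (A × A) ≃ₗ[A] (A × A) where
  toFun x := (x.1, x.2 * u)
  invFun x := (x.1, x.2 * v)
  map_add' x y := by simp [add_mul]
  map_smul' r x := by simp [mul_assoc]
  left_inv x := by simp [mul_assoc, h]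
  right_inv x := by simp [mul_assoc, h']

end Equiv

section Field

theorem field_equiv (F : Type*) [Field F] :
    ∃ f : (KG F × KG F) ≃ₗ[KG F] (KG F × KG F), ∀ x, dL F (f x) = dK F x := by
  have ha := a_cube F
  by_cases h7 : (7 : F) = 0
  · have h7' : (7 : KG F) = 0 := by
      have := congrArg (algebraMap F (KG F)) h7
      simpa [map_ofNat] using this
    have hs := ss_nn ha
    have h1 := ss_idem ha h7'
    have h2 := ss_am2_zero ha h7'
    have h3 := am2_ss_zero ha h7'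
    have h4 := ss_yy_ss ha h7' (b F)
    refine ⟨(dgR _ _ (u_mul ha h7') (mul_u ha h7')).trans
      ((shR (yy (a F) (b F))).trans ((shL (-ss (a F))).trans
        (shR (yy (a F) (b F) * ss (a F))))), ?_⟩
    rintro ⟨p, q⟩
    show ((p + (q * (a F - 2 + ss (a F)) + p * yy (a F) (b F)) * -ss (a F)) * nn (a F), (0 : KG F),
      (q * (a F - 2 + ss (a F)) + p * yy (a F) (b F))
        + (p + (q * (a F - 2 + ss (a F)) + p * yy (a F) (b F)) * -ss (a F))
          * (yy (a F) (b F) * ss (a F)))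
      = (p * nn (a F), 0, p * yy (a F) (b F) + q * (a F - 2))
    generalize yy (a F) (b F) = Y at *
    generalize nn (a F) = NN at *
    generalize a F - 2 = c at *
    generalize ss (a F) = e at *
    have e1 : (p + (q * (c + e) + p * Y) * -e) * NN = p * NN := by
      have : (p + (q * (c + e) + p * Y) * -e) * NN
        = p * NN - (q * (c + e) + p * Y) * (e * NN) := by noncomm_ring
      rw [this, hs]; simp
    have e2 : (q * (c + e) + p * Y) + (p + (q * (c + e) + p * Y) * -e) * (Y * e)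
        = p * Y + q * c := by
      have : (q * (c + e) + p * Y) + (p + (q * (c + e) + p * Y) * -e) * (Y * e)
        = q * c + q * e + p * Y + p * Y * e - q * c * (e * Y * e) - q * e * (e * Y * e)
          - p * Y * (e * Y * e) := by noncomm_ring
      rw [this, h4]
      have h5 : q * c * e = 0 := by rw [mul_assoc, h3, mul_zero]
      have h6 : q * e * e = q * e := by rw [mul_assoc, h1]
      rw [h5, h6]; abel
    rw [e1, e2]
  · have h7' : algebraMap F (KG F) 7 = 7 := by simp [map_ofNat]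
    have hinv : algebraMap F (KG F) (7⁻¹) * 7 = 1 := by
      rw [← h7', ← map_mul, inv_mul_cancel₀ h7, map_one]
    have hc : ∀ z : KG F, z * algebraMap F (KG F) (7⁻¹) = algebraMap F (KG F) (7⁻¹) * z :=
      fun z => (Algebra.commutes _ _).symm
    have hu : (a F - 2) * (-(algebraMap F (KG F) (7⁻¹)) * vv (a F)) = 1 := by
      have : (a F - 2) * (-(algebraMap F (KG F) (7⁻¹)) * vv (a F))
        = -(((a F - 2) * algebraMap F (KG F) (7⁻¹)) * vv (a F)) := by noncomm_ring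
      rw [this, hc, mul_assoc, am2_vv ha, mul_neg, neg_neg, hinv]
    have hu' : (-(algebraMap F (KG F) (7⁻¹)) * vv (a F)) * (a F - 2) = 1 := by
      rw [mul_assoc, vv_am2 ha, neg_mul_neg, hinv]
    refine ⟨(dgR _ _ hu hu').trans (shR (yy (a F) (b F))), ?_⟩
    rintro ⟨p, q⟩
    show (p * nn (a F), (0 : KG F), q * (a F - 2) + p * yy (a F) (b F))
      = (p * nn (a F), 0, p * yy (a F) (b F) + q * (a F - 2))
    rw [add_comm]

end Field

section Stable
variable (k : Type*) [CommRing k]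

/-- the stable isomorphism
`(p, q, r) ↦ (p - r s, p y + q (a - 2), q - r t)` -/
noncomputable def stab : ((KG k × KG k) × KG k) ≃ₗ[KG k] ((KG k × KG k) × KG k) where
  toFun x := ((x.1.1 - x.2 * ss (a k), x.1.1 * yy (a k) (b k) + x.1.2 * (a k - 2)),
    x.1.2 - x.2 * tt (a k) (b k))
  invFun x := ((x.1.1 + (x.1.2 - x.1.1 * yy (a k) (b k) - x.2 * (a k - 2)) * ss (a k),
    x.2 + (x.1.2 - x.1.1 * yy (a k) (b k) - x.2 * (a k - 2)) * tt (a k) (b k)),
    x.1.2 - x.1.1 * yy (a k) (b k) - x.2 * (a k - 2))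
  map_add' x y := by
    ext <;> simp only [Prod.fst_add, Prod.snd_add] <;> noncomm_ring
  map_smul' r x := by
    ext <;> simp only [Prod.smul_fst, Prod.smul_snd, smul_eq_mul, RingHom.id_apply] <;>
      noncomm_ring
  left_inv x := by
    obtain ⟨⟨p, q⟩, r⟩ := x
    have hu := unimodular (a_cube k) (b k)
    have e : p * yy (a k) (b k) + q * (a k - 2) - (p - r * ss (a k)) * yy (a k) (b k)
        - (q - r * tt (a k) (b k)) * (a k - 2) = r := by
      have : p * yy (a k) (b k) + q * (a k - 2) - (p - r * ss (a k)) * yy (a k) (b k)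
        - (q - r * tt (a k) (b k)) * (a k - 2)
        = r * (ss (a k) * yy (a k) (b k) + tt (a k) (b k) * (a k - 2)) := by noncomm_ring
      rw [this, hu, mul_one]
    simp only [e]
    simp
  right_inv x := by
    obtain ⟨⟨p, q⟩, r⟩ := x
    have hu := unimodular (a_cube k) (b k)
    have e : (p + (q - p * yy (a k) (b k) - r * (a k - 2)) * ss (a k)) * yy (a k) (b k)
        + (r + (q - p * yy (a k) (b k) - r * (a k - 2)) * tt (a k) (b k)) * (a k - 2) = q := by
      have : (p + (q - p * yy (a k) (b k) - r * (a k - 2)) * ss (a k)) * yy (a k) (b k)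
        + (r + (q - p * yy (a k) (b k) - r * (a k - 2)) * tt (a k) (b k)) * (a k - 2)
        = p * yy (a k) (b k) + r * (a k - 2) + (q - p * yy (a k) (b k) - r * (a k - 2)) *
          (ss (a k) * yy (a k) (b k) + tt (a k) (b k) * (a k - 2)) := by noncomm_ring
      rw [this, hu, mul_one]; abel
    simp only [e]
    simp

theorem stab_spec (x : (KG k × KG k) × KG k) : dL k (stab k x).1 = dK k x.1 := by
  obtain ⟨⟨p, q⟩, r⟩ := x
  show ((p - r * ss (a k)) * nn (a k), (0 : KG k), p * yy (a k) (b k) + q * (a k - 2))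
    = (p * nn (a k), 0, p * yy (a k) (b k) + q * (a k - 2))
  have : (p - r * ss (a k)) * nn (a k) = p * nn (a k) := by
    rw [sub_mul, mul_assoc, ss_nn (a_cube k), mul_zero, sub_zero]
  rw [this]

end Stable

section NonIso

open Matrix

theorem rhoA_cube : (!![1, 0; 0, zeta] : Matrix (Fin 2) (Fin 2) S) ^ 3 = 1 := by
  have h := zeta_cube
  have h' : zeta * zeta * zeta = 1 := by rw [← h]; noncomm_ring
  rw [pow_succ, pow_two]
  refine Matrix.ext fun i j => ?_
  fin_cases i <;> fin_cases j <;> simp [Matrix.mul_apply, Fin.sum_univ_two, h']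

/-- the image of `b` -/
def rhoUnit : (Matrix (Fin 2) (Fin 2) S)ˣ where
  val := !![0, 1; 1, xx]
  inv := !![-xx, 1; 1, 0]
  val_inv := by
    refine Matrix.ext fun i j => ?_
    fin_cases i <;> fin_cases j <;> simp [Matrix.mul_apply, Fin.sum_univ_two]
  inv_val := by
    refine Matrix.ext fun i j => ?_
    fin_cases i <;> fin_cases j <;> simp [Matrix.mul_apply, Fin.sum_univ_two]

/-- the representation `ρ : ℤG → M₂(S)` -/
noncomputable def rho : KG ℤ →ₐ[ℤ] Matrix (Fin 2) (Fin 2) S :=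
  MonoidAlgebra.lift ℤ _ G (ghom !![1, 0; 0, zeta] rhoA_cube rhoUnit)

theorem rho_a : rho (a ℤ) = !![1, 0; 0, zeta] := by
  unfold rho a
  rw [MonoidAlgebra.lift_single, one_smul, ghom_a]

theorem rho_b : rho (b ℤ) = !![0, 1; 1, xx] := by
  unfold rho b
  rw [MonoidAlgebra.lift_single, one_smul, ghom_b]; rfl

theorem S_three_mul {x : S} (h : 3 * x = 0) : x = 0 := by
  have h3 : (3 : S) = ⟨3, 0, 0, 0⟩ := rfl
  rw [h3] at h
  obtain ⟨g1, g2, g3, g4⟩ := ext4 h
  simp at g1 g2 g3 g4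
  ext <;> assumption

theorem S_mul_three {x : S} (h : x * 3 = 0) : x = 0 := by
  have h3 : (3 : S) = ⟨3, 0, 0, 0⟩ := rfl
  rw [h3] at h
  obtain ⟨g1, g2, g3, g4⟩ := ext4 h
  simp at g1 g2 g3 g4
  ext <;> assumption

theorem rho_nn : rho (nn (a ℤ)) = !![3, 0; 0, 0] := by
  have h : 1 + zeta + zeta * zeta = 0 := by
    ext <;> simp [zeta]
  unfold nn
  rw [map_add, map_add, map_one, map_pow, rho_a, pow_two]
  refine Matrix.ext fun i j => ?_
  fin_cases i <;> fin_cases j <;> simp [Matrix.mul_apply, Fin.sum_univ_two, h]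
  norm_num

theorem rho_yy : rho (yy (a ℤ) (b ℤ)) 1 1 = 1 + zeta * xx - xx * zeta := by
  unfold yy
  rw [map_sub, map_add, map_one, map_mul, map_mul, rho_a, rho_b]
  simp [Matrix.mul_apply, Fin.sum_univ_two]

theorem rho_two : rho 2 = !![2, 0; 0, 2] := by
  rw [map_ofNat]
  refine Matrix.ext fun i j => ?_
  fin_cases i <;> fin_cases j <;> simp [Matrix.ofNat_apply]

theorem rho_four : rho 4 = !![4, 0; 0, 4] := by
  rw [map_ofNat]
  refine Matrix.ext fun i j => ?_
  fin_cases i <;> fin_cases j <;> simp [Matrix.ofNat_apply]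

theorem rho_seven : rho 7 = !![7, 0; 0, 7] := by
  rw [map_ofNat]
  refine Matrix.ext fun i j => ?_
  fin_cases i <;> fin_cases j <;> simp [Matrix.ofNat_apply]

theorem rho_am1 : rho (a ℤ - 1) = !![0, 0; 0, zeta - 1] := by
  rw [map_sub, map_one, rho_a]
  refine Matrix.ext fun i j => ?_
  fin_cases i <;> fin_cases j <;> simp

theorem rho_am2 : rho (a ℤ - 2) = !![-1, 0; 0, zeta - 2] := by
  rw [map_sub, rho_two, rho_a]
  refine Matrix.ext fun i j => ?_
  fin_cases i <;> fin_cases j <;> simp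
  norm_num

theorem rho_am4 : rho (a ℤ - 4) = !![-3, 0; 0, zeta - 4] := by
  rw [map_sub, rho_four, rho_a]
  refine Matrix.ext fun i j => ?_
  fin_cases i <;> fin_cases j <;> simp
  norm_num

theorem rho_am1_am2 : rho ((a ℤ - 1) * (a ℤ - 2)) = !![0, 0; 0, (zeta - 1) * (zeta - 2)] := by
  rw [map_mul, rho_am1, rho_am2]
  refine Matrix.ext fun i j => ?_
  fin_cases i <;> fin_cases j <;> simp [Matrix.mul_apply, Fin.sum_univ_two]

theorem rho_am1_am4 : rho ((a ℤ - 1) * (a ℤ - 4)) = !![0, 0; 0, (zeta - 1) * (zeta - 4)] := by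
  rw [map_mul, rho_am1, rho_am4]
  refine Matrix.ext fun i j => ?_
  fin_cases i <;> fin_cases j <;> simp [Matrix.mul_apply, Fin.sum_univ_two]

theorem rho_p0 : rho (p0 (a ℤ) (b ℤ)) 1 1
    = (zeta - 1) * (zeta - 2) * (1 + xx * ((zeta - 1) * (zeta - 4))) := by
  unfold p0
  rw [map_mul rho ((a ℤ - 1) * (a ℤ - 2)) _, rho_am1_am2, map_add, map_one,
    map_mul rho (b ℤ) _, rho_am1_am4, rho_b]
  simp [Matrix.mul_apply, Fin.sum_univ_two]

theorem no_kernel_iso : IsEmpty (LinearMap.ker (dL ℤ) ≃ₗ[KG ℤ] LinearMap.ker (dK ℤ)) := by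
  refine ⟨fun θ => ?_⟩
  have ha := a_cube ℤ
  have hx0 : (a ℤ - 1, (0 : KG ℤ)) ∈ LinearMap.ker (dL ℤ) := by
    show ((a ℤ - 1) * nn (a ℤ), (0 : KG ℤ), (0 : KG ℤ)) = 0
    rw [am1_nn ha]; rfl
  obtain ⟨⟨w, w'⟩, hw⟩ : ∃ x : KG ℤ × KG ℤ, x = (θ ⟨_, hx0⟩ : KG ℤ × KG ℤ) := ⟨_, rfl⟩
  have hmem : (w, w') ∈ LinearMap.ker (dK ℤ) := by rw [hw]; exact (θ ⟨_, hx0⟩).2
  have hmem' : (w * nn (a ℤ), (0 : KG ℤ), w * yy (a ℤ) (b ℤ) + w' * (a ℤ - 2)) = 0 := hmem
  have hwN : w * nn (a ℤ) = 0 := congrArg Prod.fst hmem'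
  have hwy : w * yy (a ℤ) (b ℤ) + w' * (a ℤ - 2) = 0 :=
    congrArg (fun x : KG ℤ × KG ℤ × KG ℤ => x.2.2) hmem'
  have hNw : nn (a ℤ) * w = 0 := by
    have h1 : nn (a ℤ) • (⟨_, hx0⟩ : LinearMap.ker (dL ℤ)) = 0 := by
      apply Subtype.ext
      show (nn (a ℤ) * (a ℤ - 1), nn (a ℤ) * 0) = (0 : KG ℤ × KG ℤ)
      rw [nn_am1 ha, mul_zero]; rfl
    have h2 : nn (a ℤ) • θ ⟨_, hx0⟩ = 0 := by rw [← map_smul, h1, map_zero]
    have h3 : (nn (a ℤ) • (w, w') : KG ℤ × KG ℤ) = 0 := by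
      rw [hw]; exact congrArg Subtype.val h2
    exact congrArg Prod.fst h3
  -- every element of the kernel is a multiple of `(w, w')`
  have hgen : ∀ x ∈ LinearMap.ker (dK ℤ), ∃ v : KG ℤ, x.1 = v * w := by
    intro x hx
    obtain ⟨⟨p, q⟩, hpq⟩ : ∃ z : KG ℤ × KG ℤ, z = (θ.symm ⟨x, hx⟩ : KG ℤ × KG ℤ) := ⟨_, rfl⟩
    have hm : (p, q) ∈ LinearMap.ker (dL ℤ) := by rw [hpq]; exact (θ.symm ⟨x, hx⟩).2
    have hm' : (p * nn (a ℤ), (0 : KG ℤ), q) = 0 := hm
    have hq : q = 0 := congrArg (fun x : KG ℤ × KG ℤ × KG ℤ => x.2.2) hm'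
    have hp : p * nn (a ℤ) = 0 := congrArg Prod.fst hm'
    obtain ⟨v, hv⟩ := kerN p hp
    refine ⟨v, ?_⟩
    have h1 : θ.symm ⟨x, hx⟩ = v • (⟨_, hx0⟩ : LinearMap.ker (dL ℤ)) := by
      apply Subtype.ext
      rw [← hpq]
      show (p, q) = (v * (a ℤ - 1), v * 0)
      rw [hv, hq, mul_zero]
    have h2 : (⟨x, hx⟩ : LinearMap.ker (dK ℤ)) = v • θ ⟨_, hx0⟩ := by
      rw [← map_smul, ← h1, LinearEquiv.apply_symm_apply]
    have h3 : x = v • (w, w') := by
      rw [hw]; exact congrArg Subtype.val h2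
    rw [h3]; rfl
  obtain ⟨r, hr⟩ := hgen (7 * (a ℤ - 1), (a ℤ - 1) * yy (a ℤ) (b ℤ) * vv (a ℤ)) (by
    show (7 * (a ℤ - 1) * nn (a ℤ), (0 : KG ℤ), (7 * (a ℤ - 1)) * yy (a ℤ) (b ℤ)
      + ((a ℤ - 1) * yy (a ℤ) (b ℤ) * vv (a ℤ)) * (a ℤ - 2)) = 0
    rw [seven_nn ha, seven_ker ha]; rfl)
  obtain ⟨t, ht⟩ := hgen (p0 (a ℤ) (b ℤ), q0 (a ℤ) (b ℤ)) (by
    show (p0 (a ℤ) (b ℤ) * nn (a ℤ), (0 : KG ℤ), p0 (a ℤ) (b ℤ) * yy (a ℤ) (b ℤ)
      + q0 (a ℤ) (b ℤ) * (a ℤ - 2)) = 0
    rw [p0_nn ha, p0_q0 ha]; rfl)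
  -- apply the representation
  have hw10 : rho w 1 0 = 0 := by
    have h := congrArg (fun z => rho z 1 0) hwN
    simp only [map_mul, rho_nn, map_zero] at h
    simp [Matrix.mul_apply, Fin.sum_univ_two] at h
    exact S_mul_three h
  have hw01 : rho w 0 1 = 0 := by
    have h := congrArg (fun z => rho z 0 1) hNw
    simp only [map_mul, rho_nn, map_zero] at h
    simp [Matrix.mul_apply, Fin.sum_univ_two] at h
    exact S_three_mul h
  refine quat_contra (rho w 1 1) (rho r 1 1) (-(rho w' 1 1)) (rho t 1 1) ?_ ?_ ?_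
  · have h := congrArg (fun z => rho z 1 1) hr
    simp only [map_mul, map_sub, map_one, rho_a, rho_seven] at h
    simp [Matrix.mul_apply, Fin.sum_univ_two, hw01] at h
    exact h.symm
  · have h := congrArg (fun z => rho z 1 1) hwy
    simp only [map_mul, map_add, map_sub, map_zero, rho_a, rho_two] at h
    simp [Matrix.mul_apply, Fin.sum_univ_two, hw10, rho_yy] at h
    rw [neg_mul]
    exact eq_neg_of_add_eq_zero_left h
  · have h := congrArg (fun z => rho z 1 1) ht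
    simp only [map_mul] at h
    rw [rho_p0] at h
    simp [Matrix.mul_apply, Fin.sum_univ_two, hw01] at h
    exact h

theorem no_iso : ¬ ∃ f : (KG ℤ × KG ℤ) ≃ₗ[KG ℤ] (KG ℤ × KG ℤ), ∀ x, dL ℤ (f x) = dK ℤ x := by
  rintro ⟨f, hf⟩
  have h : LinearMap.ker (dL ℤ) = (LinearMap.ker (dK ℤ)).map (f : (KG ℤ × KG ℤ) →ₗ[KG ℤ] _) := by
    ext x
    simp only [Submodule.mem_map, LinearMap.mem_ker]
    constructor
    · intro hx
      exact ⟨f.symm x, by rw [← hf, LinearEquiv.apply_symm_apply, hx],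
        LinearEquiv.apply_symm_apply f x⟩
    · rintro ⟨z, hz, rfl⟩
      rw [← hz, ← hf]; rfl
  exact no_kernel_iso.false ((f.submoduleMap (LinearMap.ker (dK ℤ))).trans
    (LinearEquiv.ofEq _ _ h.symm)).symm

end NonIso

end Exotic
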